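import Pool.Agent.Helper53.SL.St2

/-!
# Project SM for MP_9062f4_nt, module SER: the power series of `A* / Q*`
-/

set_option autoImplicit false

open Polynomial

noncomputable section

namespace Pool.Agent.Helper6.SLM

open Pool.Agent.Helper53.SL

/-- `G` is the sum of the power series `P` in the open unit disc (absolute convergence) -/
def Good (P : PowerSeries ℂ) (G : ℂ → ℂ) : Prop := ∀ z : ℂ, ‖z‖ < 1 →
  Summable (fun n : ℕ => ‖PowerSeries.coeff n P * z ^ n‖) ∧
  HasSum (fun n : ℕ => PowerSeries.coeff n P * z ^ n) (G z)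

theorem Good.mul {P P' : PowerSeries ℂ} {G G' : ℂ → ℂ} (h : Good P G) (h' : Good P' G') :
    Good (P * P') (fun z => G z * G' z) := by
  intro z hz
  obtain ⟨h1, h2⟩ := h z hz
  obtain ⟨h1', h2'⟩ := h' z hz
  have e : ∀ n : ℕ, PowerSeries.coeff n (P * P') * z ^ n =
      ∑ kl ∈ Finset.HasAntidiagonal.antidiagonal n, (PowerSeries.coeff kl.1 P * z ^ kl.1) *
        (PowerSeries.coeff kl.2 P' * z ^ kl.2) := by
    intro n
    rw [PowerSeries.coeff_mul, Finset.sum_mul]
    refine Finset.sum_congr rfl fun kl hkl => ?_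
    rw [← Finset.HasAntidiagonal.mem_antidiagonal.mp hkl, pow_add]
    ring
  have s := summable_norm_sum_mul_antidiagonal_of_summable_norm h1 h1'
  have t := tsum_mul_tsum_eq_tsum_sum_antidiagonal_of_summable_norm h1 h1'
  rw [h2.tsum_eq, h2'.tsum_eq] at t
  simp_rw [e]
  refine ⟨s, ?_⟩
  show HasSum _ (G z * G' z)
  rw [t]
  exact s.of_norm.hasSum

theorem good_poly (p : ℂ[X]) : Good (p : PowerSeries ℂ) (fun z => p.eval z) := by
  intro z _
  have hz : ∀ n : ℕ, n ∉ Finset.range (p.natDegree + 1) → PowerSeries.coeff n (p : PowerSeries ℂ) * z ^ n = 0 := by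
    intro n hn
    rw [Polynomial.coeff_coe, Polynomial.coeff_eq_zero_of_natDegree_lt (by simpa using hn), zero_mul]
  have h := hasSum_sum_of_ne_finset_zero (L := SummationFilter.unconditional ℕ) hz
  have e : ∑ n ∈ Finset.range (p.natDegree + 1), PowerSeries.coeff n (p : PowerSeries ℂ) * z ^ n = p.eval z := by
    rw [Polynomial.eval_eq_sum_range]
    exact Finset.sum_congr rfl fun n _ => by rw [Polynomial.coeff_coe]
  rw [e] at h
  exact ⟨h.summable.norm, h⟩

theorem good_geom (α : ℂ) (hα : ‖α‖ ≤ 1) : Good (PowerSeries.mk fun n => α ^ n) (fun z => (1 - α * z)⁻¹) := by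
  intro z hz
  have h1 : ‖α * z‖ < 1 := by
    rw [norm_mul]
    calc ‖α‖ * ‖z‖ ≤ 1 * ‖z‖ := mul_le_mul_of_nonneg_right hα (norm_nonneg _)
      _ < 1 := by linarith
  have h := hasSum_geometric_of_norm_lt_one h1
  have e : ∀ n : ℕ, PowerSeries.coeff n (PowerSeries.mk fun n => α ^ n) * z ^ n = (α * z) ^ n := by
    intro n
    rw [PowerSeries.coeff_mk, mul_pow]
  simp_rw [e]
  exact ⟨h.summable.norm, h⟩

theorem geom_mul (α : ℂ) : (PowerSeries.mk fun n => α ^ n) * (((1 - C α * X : ℂ[X])) : PowerSeries ℂ) = 1 := by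
  ext n
  rw [Polynomial.coe_sub, Polynomial.coe_one, Polynomial.coe_mul, Polynomial.coe_C, Polynomial.coe_X, mul_sub, mul_one,
    map_sub, ← mul_assoc]
  rcases n with _ | n
  · simp
  · rw [PowerSeries.coeff_succ_mul_X, PowerSeries.coeff_mul_C]
    simp [pow_succ, PowerSeries.coeff_one]

theorem reverse_X_sub_C (α : ℂ) : (X - C α : ℂ[X]).reverse = 1 - C α * X := by
  unfold Polynomial.reverse
  rw [natDegree_X_sub_C, Polynomial.reflect_sub, Polynomial.reflect_C, pow_one]
  congr 1
  have := Polynomial.reflect_monomial (R := ℂ) 1 1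
  simpa using this

theorem rev_one : (1 : ℂ[X]).reverse = 1 := by
  rw [← Polynomial.C_1, Polynomial.reverse_C]

theorem good_inv (s : Multiset ℂ) (hs : ∀ α ∈ s, ‖α‖ ≤ 1) : ∃ P : PowerSeries ℂ,
    Good P (fun z => (((s.map fun a => X - C a).prod).reverse.eval z)⁻¹) ∧
    P * ((((s.map fun a => X - C a).prod).reverse : ℂ[X]) : PowerSeries ℂ) = 1 := by
  induction s using Multiset.induction_on with
  | empty =>
    refine ⟨1, ?_, ?_⟩
    · have := good_poly 1
      rw [Multiset.map_zero, Multiset.prod_zero, rev_one]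
      simpa [Polynomial.coe_one] using this
    · rw [Multiset.map_zero, Multiset.prod_zero, rev_one]
      simp
  | cons a s ih =>
    obtain ⟨P, h1, h2⟩ := ih fun α h => hs α (Multiset.mem_cons_of_mem h)
    refine ⟨(PowerSeries.mk fun n => a ^ n) * P, ?_, ?_⟩
    · have := (good_geom a (hs a (Multiset.mem_cons_self a s))).mul h1
      rw [Multiset.map_cons, Multiset.prod_cons, Polynomial.reverse_mul_of_domain, reverse_X_sub_C]
      have e : (fun z : ℂ => (((1 - C a * X : ℂ[X]) * (s.map fun a => X - C a).prod.reverse).eval z)⁻¹) =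
          fun z => (1 - a * z)⁻¹ * ((s.map fun a => X - C a).prod.reverse.eval z)⁻¹ := by
        funext z
        rw [Polynomial.eval_mul, mul_inv]
        simp
      rw [e]
      exact this
    · rw [Multiset.map_cons, Multiset.prod_cons, Polynomial.reverse_mul_of_domain, reverse_X_sub_C, Polynomial.coe_mul]
      calc _ = ((PowerSeries.mk fun n => a ^ n) * (((1 - C a * X : ℂ[X])) : PowerSeries ℂ)) *
            (P * ((((s.map fun a => X - C a).prod).reverse : ℂ[X]) : PowerSeries ℂ)) := by ring
        _ = 1 := by rw [geom_mul, h2, one_mul]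

theorem map_coe' (p : ℤ[X]) : ((p.map (Int.castRingHom ℂ) : ℂ[X]) : PowerSeries ℂ) =
    PowerSeries.map (Int.castRingHom ℂ) (p : PowerSeries ℤ) := by
  ext n
  rw [Polynomial.coeff_coe, Polynomial.coeff_map, PowerSeries.coeff_map, Polynomial.coeff_coe]

theorem reverse_map' (p : ℤ[X]) : (p.map (Int.castRingHom ℂ)).reverse = p.reverse.map (Int.castRingHom ℂ) := by
  unfold Polynomial.reverse
  rw [natDegree_map_eq_of_injective Int.cast_injective, Polynomial.reflect_map]

theorem hSer : StSer := by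
  intro A Q hA hQ hroot
  set D : ℤ[X] := Q.reverse with hD
  set N : ℤ[X] := A.reverse with hN
  have hQ0 : Q ≠ 0 := by
    rintro rfl
    simp at hQ
  have hD0 : D.coeff 0 = Q.leadingCoeff := Polynomial.coeff_zero_reverse Q
  have hN0 : N.coeff 0 = A.leadingCoeff := Polynomial.coeff_zero_reverse A
  obtain ⟨u, hu⟩ : ∃ u : ℤˣ, (u : ℤ) = Q.leadingCoeff := by
    rcases hQ with h | h
    · exact ⟨1, by rw [h]; rfl⟩
    · exact ⟨-1, by rw [h]; rfl⟩
  have huu : ((u⁻¹ : ℤˣ) : ℤ) = Q.leadingCoeff := by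
    rw [Int.units_inv_eq_self, hu]
  set ε : ℤ := A.leadingCoeff * Q.leadingCoeff with hε
  have hcD : PowerSeries.constantCoeff (D : PowerSeries ℤ) = u := by
    rw [Polynomial.constantCoeff_coe, hD0, hu]
  set I : PowerSeries ℤ := PowerSeries.invOfUnit (D : PowerSeries ℤ) u with hI
  have hDI : (D : PowerSeries ℤ) * I = 1 := PowerSeries.mul_invOfUnit _ _ hcD
  set F : PowerSeries ℤ := PowerSeries.C ε * (N : PowerSeries ℤ) * I with hF
  refine ⟨ε, fun n => PowerSeries.coeff n F, ?_, ?_, ?_⟩
  · rcases hA with h | h <;> rcases hQ with h' | h' <;> simp [hε, h, h']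
  · show PowerSeries.coeff 0 F = 1
    rw [PowerSeries.coeff_zero_eq_constantCoeff_apply, hF, map_mul, map_mul, PowerSeries.constantCoeff_C,
      Polynomial.constantCoeff_coe, hN0, hI, PowerSeries.constantCoeff_invOfUnit, huu, hε]
    rcases hA with h | h <;> rcases hQ with h' | h' <;> simp [h, h']
  · -- the complex side
    set q : ℂ[X] := Q.map (Int.castRingHom ℂ) with hq
    have hql : q.leadingCoeff = (Q.leadingCoeff : ℂ) := by
      rw [hq, Polynomial.leadingCoeff_map_of_injective (f := Int.castRingHom ℂ) Int.cast_injective]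
      rfl
    have hql0 : q.leadingCoeff ≠ 0 := by
      rw [hql]
      rcases hQ with h | h <;> simp [h]
    have hsplit : q = C q.leadingCoeff * (q.roots.map fun a => X - C a).prod :=
      (Polynomial.Splits.eq_prod_roots (IsAlgClosed.splits q))
    obtain ⟨P, hP1, hP2⟩ := good_inv q.roots (by
      intro α hα
      apply hroot
      have := (Polynomial.mem_roots'.mp hα).2
      rw [Polynomial.IsRoot.def, hq, Polynomial.eval_map] at this
      rw [Polynomial.aeval_def]
      exact this)
    set R : ℂ[X] := ((q.roots.map fun a => X - C a).prod).reverse with hR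
    have hrev : q.reverse = C q.leadingCoeff * R := by
      conv_lhs => rw [hsplit]
      rw [Polynomial.reverse_mul_of_domain, Polynomial.reverse_C]
    have hDmap : D.map (Int.castRingHom ℂ) = C q.leadingCoeff * R := by
      rw [← hrev, hq, reverse_map']
    have hgood : Good ((((C ((ε : ℂ) * q.leadingCoeff⁻¹)) * N.map (Int.castRingHom ℂ) : ℂ[X]) : PowerSeries ℂ) * P)
        (fun z => ((C ((ε : ℂ) * q.leadingCoeff⁻¹)) * N.map (Int.castRingHom ℂ)).eval z * (R.eval z)⁻¹) :=
      (good_poly _).mul hP1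
    have hFD : F * (D : PowerSeries ℤ) = PowerSeries.C ε * (N : PowerSeries ℤ) := by
      rw [hF, mul_assoc, mul_comm I, hDI, mul_one]
    have hFDc : PowerSeries.map (Int.castRingHom ℂ) F * ((D.map (Int.castRingHom ℂ) : ℂ[X]) : PowerSeries ℂ) =
        PowerSeries.C (ε : ℂ) * ((N.map (Int.castRingHom ℂ) : ℂ[X]) : PowerSeries ℂ) := by
      have := congrArg (PowerSeries.map (Int.castRingHom ℂ)) hFD
      rw [map_mul, map_mul (PowerSeries.map (Int.castRingHom ℂ)) (PowerSeries.C ε), PowerSeries.map_C,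
        ← map_coe', ← map_coe'] at this
      exact this
    have hne : ((D.map (Int.castRingHom ℂ) : ℂ[X]) : PowerSeries ℂ) ≠ 0 := by
      intro h
      have : (PowerSeries.coeff 0) ((D.map (Int.castRingHom ℂ) : ℂ[X]) : PowerSeries ℂ) = 0 := by rw [h]; simp
      rw [Polynomial.coeff_coe, Polynomial.coeff_map, hD0] at this
      apply hql0
      rw [hql]
      exact this
    have hkey : PowerSeries.map (Int.castRingHom ℂ) F =
        (((C ((ε : ℂ) * q.leadingCoeff⁻¹)) * N.map (Int.castRingHom ℂ) : ℂ[X]) : PowerSeries ℂ) * P := by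
      apply mul_right_cancel₀ hne
      rw [hFDc, hDmap, Polynomial.coe_mul, Polynomial.coe_mul, Polynomial.coe_C, Polynomial.coe_C]
      calc PowerSeries.C (ε : ℂ) * ((N.map (Int.castRingHom ℂ) : ℂ[X]) : PowerSeries ℂ)
          = PowerSeries.C (((ε : ℂ) * q.leadingCoeff⁻¹) * q.leadingCoeff) *
              ((N.map (Int.castRingHom ℂ) : ℂ[X]) : PowerSeries ℂ) * (P * (R : PowerSeries ℂ)) := by
            rw [hP2, mul_one, mul_assoc, inv_mul_cancel₀ hql0, mul_one]
        _ = _ := by
            rw [map_mul]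
            ring
    intro z hz
    have h := (hgood z hz).2
    rw [← hkey] at h
    have e1 : ∀ n : ℕ, PowerSeries.coeff n (PowerSeries.map (Int.castRingHom ℂ) F) = ((PowerSeries.coeff n F : ℤ) : ℂ) := by
      intro n
      rw [PowerSeries.coeff_map]
      rfl
    simp_rw [e1] at h
    have e2 : (ε : ℂ) * aeval z A.reverse / aeval z Q.reverse =
        ((C ((ε : ℂ) * q.leadingCoeff⁻¹)) * N.map (Int.castRingHom ℂ)).eval z * (R.eval z)⁻¹ := by
      have a1 : aeval z A.reverse = (N.map (Int.castRingHom ℂ)).eval z := by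
        rw [Polynomial.eval_map, Polynomial.aeval_def]
        rfl
      have a2 : aeval z Q.reverse = q.leadingCoeff * R.eval z := by
        have : aeval z Q.reverse = (D.map (Int.castRingHom ℂ)).eval z := by
          rw [Polynomial.eval_map, Polynomial.aeval_def]
          rfl
        rw [this, hDmap, Polynomial.eval_mul, Polynomial.eval_C]
      rw [a1, a2, Polynomial.eval_mul, Polynomial.eval_C, div_eq_mul_inv, mul_inv]
      ring
    rw [e2]
    exact h

end Pool.Agent.Helper6.SLM

end
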